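import Pool.Agent.H58.FL.TargetsB

/-!
# Row HTP of the board `flc_modules` (MP_6a7a6f_gt)
-/

set_option autoImplicit false

open Topology

namespace Pool.Agent.H35.FL

open Pool.Agent.H58.FL Pool.Agent.H59 Pool.Agent.H48.FR

noncomputable section

variable {Y Z : Type} [TopologicalSpace Y] [TopologicalSpace Z]

/-- the homotopy on one simplex -/
def hs {f g : C(Y, Z)} (F : f.Homotopy g) {n : ℕ} (s : Smp n Y) : C(Dl n × unitInterval, Z) :=
  F.toContinuousMap.comp (ContinuousMap.snd.prodMk (s.comp ContinuousMap.fst))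

theorem hs_apply {f g : C(Y, Z)} (F : f.Homotopy g) {n : ℕ} (s : Smp n Y)
    (q : Dl n × unitInterval) : hs F s q = F (q.2, s q.1) := rfl

/-- the prism operator -/
def prism {f g : C(Y, Z)} (F : f.Homotopy g) (n : ℕ) : Ch ℤ n Y →ₗ[ℤ] Ch ℤ (n + 1) Z :=
  Finsupp.linearCombination ℤ (fun s : Smp n Y => prc n (hs F s))

theorem prism_single {f g : C(Y, Z)} (F : f.Homotopy g) (n : ℕ) (s : Smp n Y) :
    prism F n (Finsupp.single s 1) = prc n (hs F s) := by
  rw [prism, Finsupp.linearCombination_single, one_smul]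

theorem bd_prism {f g : C(Y, Z)} (F : f.Homotopy g) (n : ℕ) (z : Ch ℤ (n + 1) Y) :
    bd ℤ (n + 1) Z (prism F (n + 1) z) =
      pf ℤ (n + 1) g z - pf ℤ (n + 1) f z - prism F n (bd ℤ n Y z) := by
  refine lin_ext (f := (bd ℤ (n + 1) Z).comp (prism F (n + 1)))
    (g := pf ℤ (n + 1) g - pf ℤ (n + 1) f - (prism F n).comp (bd ℤ n Y)) (fun s => ?_) z
  simp only [LinearMap.comp_apply, LinearMap.sub_apply]
  rw [prism_single, bd_prc, pf_single, pf_single, bd_single, one_smul, map_sum]
  have h1 : (hs F s).comp ((ContinuousMap.id _).prodMk (ContinuousMap.const _ 1)) = g.comp s := by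
    ext1 x
    show F (1, s x) = g (s x)
    exact F.apply_one (s x)
  have h0 : (hs F s).comp ((ContinuousMap.id _).prodMk (ContinuousMap.const _ 0)) = f.comp s := by
    ext1 x
    show F (0, s x) = f (s x)
    exact F.apply_zero (s x)
  rw [h1, h0]
  congr 1
  refine Finset.sum_congr rfl fun i _ => ?_
  rw [map_smul, prism_single]
  rfl

theorem pf_HTP : T_HTP := by
  intro Y Z _ _ f g hfg n z hz
  obtain ⟨F⟩ := hfg
  cases n with
  | zero =>
    refine ⟨0, ?_⟩
    rw [map_zero]
    have h1 : pf ℤ 0 f z = pf ℤ 0 g z := by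
      refine lin_ext (f := pf ℤ 0 f) (g := pf ℤ 0 g) (fun s => ?_) z
      rw [pf_single, pf_single]
      congr 1
      ext1 x
      exfalso
      have h2 := x.2.2
      simp at h2
    rw [h1, sub_self]
  | succ n =>
    have hz' : bd ℤ n Y z = 0 := hz
    refine ⟨-prism F (n + 1) z, ?_⟩
    rw [map_neg, bd_prism, hz', map_zero, sub_zero, neg_sub]

end

end Pool.Agent.H35.FL
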