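import Pool.Agent.H58.FL.TargetsD

/-!
# MP_6a7a6f_gt, board fld_modules, row NU3: numerical facts
-/

set_option autoImplicit false

open Pool.Agent.H58.FL Pool.Agent.H59 Pool.Agent.H48.FR

namespace Pool.Agent.H35.FL

theorem pf_NU3 : T_NU3 := by
  obtain ⟨s, hs⟩ : ∃ s, s = Real.sqrt 5 := ⟨_, rfl⟩
  have hs2 : s * s = 5 := by rw [hs]; exact Real.mul_self_sqrt (by norm_num)
  have hs0 : 0 ≤ s := by rw [hs]; exact Real.sqrt_nonneg 5
  have hs1 : 223606 / 100000 < s := by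
    rw [hs, Real.lt_sqrt (by norm_num)]
    norm_num
  have hs3 : s < 22361 / 10000 := by
    rw [hs, Real.sqrt_lt' (by norm_num)]
    norm_num
  have hgr : gr = (1 + s) / 2 := by unfold gr; rw [hs]
  have hk2 : k2 = (5 - s) / 10 := by unfold k2; rw [hs]
  have hk0 : 0 < k2 := by rw [hk2]; linarith
  have hk1 : 0 < 1 - k2 := by rw [hk2]; linarith
  have hgr2 : gr ^ 2 = gr + 1 := by
    rw [hgr]
    linear_combination (1 / 4) * hs2
  have hkg : k2 * (1 + gr ^ 2) = 1 := by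
    rw [hgr2, hgr, hk2]
    linear_combination (-1 / 20) * hs2
  have hg0 : 0 < gr := by rw [hgr]; linarith
  have hc5 : Real.cos (Real.pi / 5) = gr / 2 := by
    rw [Real.cos_pi_div_five, hgr, hs]
    ring
  have hc35 : Real.cos (3 * Real.pi / 5) = -(gr - 1) / 2 := by
    have h1 : 3 * Real.pi / 5 = Real.pi - 2 * (Real.pi / 5) := by ring
    rw [h1, Real.cos_pi_sub, Real.cos_two_mul, hc5]
    linear_combination (-1 / 2) * hgr2
  have hpi := Real.pi_pos
  have hc10p : 0 < Real.cos (Real.pi / 10) :=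
    Real.cos_pos_of_mem_Ioo ⟨by linarith, by linarith⟩
  have hc10 : Real.cos (Real.pi / 10) ^ 2 = (5 + s) / 8 := by
    rw [Real.cos_sq, show 2 * (Real.pi / 10) = Real.pi / 5 by ring, hc5, hgr]
    ring
  have hr0 : 0 < Real.sqrt k2 := Real.sqrt_pos.2 hk0
  have hr2 : Real.sqrt k2 ^ 2 = k2 := Real.sq_sqrt hk0.le
  have hA : Real.sqrt k2 * Real.cos (Real.pi / 10) = 1 / 2 := by
    refine (sq_eq_sq₀ (mul_pos hr0 hc10p).le (by norm_num)).1 ?_
    rw [mul_pow, hr2, hc10, hk2]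
    linear_combination (-1 / 80) * hs2
  have hS0 : 0 ≤ S4 := by unfold S4; exact Real.sqrt_nonneg _
  have hS2 : S4 ^ 2 = k2 / 2 := by
    unfold S4
    exact Real.sq_sqrt (by linarith)
  have hc4p : 0 < Real.cos (Real.pi / 4) :=
    Real.cos_pos_of_mem_Ioo ⟨by linarith, by linarith⟩
  have hB : Real.sqrt k2 * Real.cos (Real.pi / 4) = S4 := by
    refine (sq_eq_sq₀ (mul_pos hr0 hc4p).le hS0).1 ?_
    rw [mul_pow, hr2, hS2, Real.cos_pi_div_four, div_pow, Real.sq_sqrt (by norm_num)]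
    ring
  have hsp : 0 < Real.sin (Real.pi / 5) :=
    Real.sin_pos_of_pos_of_lt_pi (by linarith) (by linarith)
  have hsq : Real.sin (Real.pi / 5) ^ 2 = (10 - 2 * s) / 16 := by
    rw [Real.sin_sq, hc5, hgr]
    linear_combination (-1 / 16) * hs2
  have hC : (3 * k2 - 1) / (2 * k2 * Real.sqrt k2) = Real.cos (7 * Real.pi / 10) := by
    rw [show 7 * Real.pi / 10 = Real.pi / 5 + Real.pi / 2 by ring, Real.cos_add_pi_div_two]
    have h1 : (1 - 3 * k2) / (2 * k2 * Real.sqrt k2) = Real.sin (Real.pi / 5) := by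
      have h2 : 0 < 1 - 3 * k2 := by rw [hk2]; linarith
      have h3 : 0 < 2 * k2 * Real.sqrt k2 := by positivity
      refine (sq_eq_sq₀ (div_pos h2 h3).le hsp.le).1 ?_
      rw [div_pow, hsq, div_eq_iff (pow_pos h3 2).ne', mul_pow, hr2, hk2]
      have h4 : s ^ 2 = 5 := by rw [sq]; exact hs2
      have h5 : s ^ 3 = 5 * s := by rw [pow_succ, h4]
      have h6 : s ^ 4 = 25 := by
        rw [show (4 : ℕ) = 2 * 2 from rfl, pow_mul, h4]
        norm_num
      ring_nf
      rw [h4, h5, h6]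
      ring
    rw [← h1]
    ring
  have hD : 1 / (2 * Real.sqrt (1 - k2)) = Real.cos (3 * Real.pi / 10) := by
    rw [show 3 * Real.pi / 10 = Real.pi / 2 - Real.pi / 5 by ring, Real.cos_pi_div_two_sub]
    have h3 : 0 < 2 * Real.sqrt (1 - k2) := by
      have := Real.sqrt_pos.2 hk1
      positivity
    refine (sq_eq_sq₀ (div_pos one_pos h3).le hsp.le).1 ?_
    rw [div_pow, hsq, div_eq_iff (pow_pos h3 2).ne', mul_pow, Real.sq_sqrt hk1.le, hk2]
    linear_combination (1 / 20) * hs2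
  refine ⟨⟨hgr2, by rw [hgr]; linarith, by rw [hgr]; linarith⟩,
    ⟨hk0, by rw [hk2]; linarith, by rw [hk2]; linarith, hkg, ?_, ?_⟩, ⟨hc5, hc35⟩, ⟨hA, hB⟩,
    ⟨hC, hD⟩, ⟨?_, ?_, hS2⟩, ?_⟩
  · rw [div_eq_iff hk0.ne']
    linarith
  · rw [div_eq_iff hk1.ne']
    have h1 : gr ^ 2 ≠ 0 := (pow_pos hg0 2).ne'
    field_simp
    linarith
  · refine lt_of_pow_lt_pow_left₀ 2 hS0 ?_
    rw [hS2, hk2]
    norm_num
    linarith
  · refine lt_of_pow_lt_pow_left₀ 2 (by norm_num) ?_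
    rw [hS2, hk2]
    norm_num
    linarith
  · have h1 : Real.cos (3 * Real.pi / 20) * gr ^ 2 - Real.cos (Real.pi / 20) =
        2 * Real.cos (Real.pi / 4) * Real.cos (Real.pi / 10) := by
      have h2 : gr ^ 2 = 1 + 2 * Real.cos (Real.pi / 5) := by rw [hc5, hgr2]; ring
      have h3 : 2 * Real.cos (Real.pi / 5) * Real.cos (3 * Real.pi / 20) =
          Real.cos (Real.pi / 20) + Real.cos (7 * Real.pi / 20) := by
        rw [Real.two_mul_cos_mul_cos]
        congr 2 <;> ring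
      have h4 : 2 * Real.cos (Real.pi / 4) * Real.cos (Real.pi / 10) =
          Real.cos (3 * Real.pi / 20) + Real.cos (7 * Real.pi / 20) := by
        rw [Real.two_mul_cos_mul_cos]
        congr 2 <;> ring
      rw [h2, h4]
      linear_combination h3
    rw [h1, ← hB]
    have h2 : Real.sqrt k2 * (1 + gr ^ 2) = 2 * Real.cos (Real.pi / 10) := by
      have h3 : Real.sqrt k2 * (Real.sqrt k2 * (1 + gr ^ 2)) =
          Real.sqrt k2 * (2 * Real.cos (Real.pi / 10)) := by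
        have h4 : Real.sqrt k2 * Real.sqrt k2 = k2 := Real.mul_self_sqrt hk0.le
        linear_combination (1 + gr ^ 2) * h4 + hkg - 2 * hA
      exact mul_left_cancel₀ hr0.ne' h3
    linear_combination Real.cos (Real.pi / 4) * h2

end Pool.Agent.H35.FL
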